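import Mathlib

/-!
Helper lemmas for the thick hyperbola graph: two points of the plane are joined when the
product of their coordinate differences lies in the interval from 1/2 to 3/2.
-/

set_option autoImplicit false

open Finset

namespace Pool.Agent.Lib.MP_8f4311_co

/-- Product of the coordinate differences of two points of the plane. -/
def pr (u v : ℝ × ℝ) : ℝ := (u.1 - v.1) * (u.2 - v.2)

/-- The hyperbola relation. -/
def Hyp (u v : ℝ × ℝ) : Prop := 0 ≤ (2 * pr u v - 1) * (3 - 2 * pr u v)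

lemma pr_comm (u v : ℝ × ℝ) : pr u v = pr v u := by
  unfold pr; ring

lemma hyp_comm {u v : ℝ × ℝ} (h : Hyp u v) : Hyp v u := by
  unfold Hyp at *; rwa [pr_comm v u]

lemma hyp_iff (u v : ℝ × ℝ) : Hyp u v ↔ 1 / 2 ≤ pr u v ∧ pr u v ≤ 3 / 2 := by
  unfold Hyp
  constructor
  · intro h
    constructor
    · by_contra h1
      push Not at h1
      nlinarith
    · by_contra h1
      push Not at h1
      nlinarith
  · rintro ⟨h1, h2⟩
    apply mul_nonneg <;> linarith

lemma no_triangle (u v w : ℝ × ℝ) (h1 : Hyp u v) (h2 : Hyp v w) (h3 : Hyp u w) : False := by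
  rw [hyp_iff] at h1 h2 h3
  obtain ⟨a1, a2⟩ := h1
  obtain ⟨b1, b2⟩ := h2
  obtain ⟨c1, c2⟩ := h3
  have key : (pr u w - pr u v - pr v w) ^ 2 - 4 * (pr u v * pr v w)
      = ((u.1 - v.1) * (v.2 - w.2) - (u.2 - v.2) * (v.1 - w.1)) ^ 2 := by
    unfold pr; ring
  have k2 : 0 ≤ (pr u w - pr u v - pr v w) ^ 2 - 4 * (pr u v * pr v w) := by
    rw [key]; positivity
  generalize pr u v = a at *
  generalize pr v w = b at *
  generalize pr u w = c at *
  nlinarith [mul_nonneg (sub_nonneg.2 a1) (sub_nonneg.2 a2), mul_nonneg (sub_nonneg.2 b1) (sub_nonneg.2 b2),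
    mul_nonneg (sub_nonneg.2 c1) (sub_nonneg.2 c2), mul_nonneg (sub_nonneg.2 a1) (sub_nonneg.2 b1),
    mul_nonneg (sub_nonneg.2 a1) (sub_nonneg.2 c1), mul_nonneg (sub_nonneg.2 b1) (sub_nonneg.2 c1)]

/-- Binary words of length `L`. -/
def B : ℕ → Type
  | 0 => Unit
  | L + 1 => Bool × B L

instance instFintypeB : ∀ L, Fintype (B L)
  | 0 => inferInstanceAs (Fintype Unit)
  | L + 1 => @instFintypeProd Bool (B L) _ (instFintypeB L)

lemma card_B : ∀ L, Fintype.card (B L) = 2 ^ L
  | 0 => rfl
  | L + 1 => by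
      have := card_B L
      show Fintype.card (Bool × B L) = _
      rw [Fintype.card_prod, this]; simp [pow_succ, mul_comm]

lemma sum_B_succ (L : ℕ) (g : B (L + 1) → ℝ) :
    ∑ x, g x = ∑ x : B L, g (false, x) + ∑ x : B L, g (true, x) := by
  have := Fintype.sum_prod_type (fun x : Bool × B L => g x)
  rw [Fintype.sum_bool, add_comm] at this
  exact this

/-- value of a bit -/
def bit (b : Bool) : ℕ := if b then 1 else 0

/-- first coordinate: base 6, most significant digit first. -/
noncomputable def Xc : ∀ L, B L → ℝ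
  | 0, _ => 0
  | L + 1, p => (bit p.1 : ℝ) + Xc L p.2 / 6

/-- second coordinate: base 6, least significant digit first. -/
def Yc : ∀ L, B L → ℕ
  | 0, _ => 0
  | L + 1, p => bit p.1 + 6 * Yc L p.2

lemma X_bounds : ∀ L (x : B L), 0 ≤ Xc L x ∧ Xc L x ≤ 6 / 5
  | 0, _ => by simp [Xc]; norm_num
  | L + 1, (b, x) => by
      obtain ⟨h1, h2⟩ := X_bounds L x
      cases b <;> simp [Xc, bit] <;> constructor <;> linarith

lemma X_inj : ∀ L, Function.Injective (Xc L)
  | 0 => fun _ _ _ => rfl
  | L + 1 => by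
      rintro ⟨b, x⟩ ⟨b', x'⟩ h
      obtain ⟨h1, h2⟩ := X_bounds L x
      obtain ⟨h3, h4⟩ := X_bounds L x'
      cases b <;> cases b' <;> simp only [Xc, bit] at h
      · have : Xc L x = Xc L x' := by simp at h; linarith
        rw [X_inj L this]
      · simp at h; linarith
      · simp at h; linarith
      · have : Xc L x = Xc L x' := by simp at h; linarith
        rw [X_inj L this]

lemma Y_inj : ∀ L, Function.Injective (Yc L)
  | 0 => fun _ _ _ => rfl
  | L + 1 => by
      rintro ⟨b, x⟩ ⟨b', x'⟩ h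
      cases b <;> cases b' <;> simp only [Yc, bit] at h
      · have : Yc L x = Yc L x' := by simp at h; omega
        rw [Y_inj L this]
      · simp at h; omega
      · simp at h; omega
      · have : Yc L x = Yc L x' := by simp at h; omega
        rw [Y_inj L this]

/-- model edges -/
def E : ∀ L, B L → B L → B L → B L → Prop
  | 0, _, _, _, _ => False
  | L + 1, x, w, x', w' =>
      (x.1 = false ∧ w.1 = false ∧ x'.1 = true ∧ w'.1 = true ∧ w.2 = w'.2) ∨
      (x.1 = x'.1 ∧ E L x.2 w.2 x'.2 w'.2)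

lemma E_bounds : ∀ L (x w x' w' : B L), E L x w x' w' →
    ∃ t : ℝ, 1 ≤ t ∧ 4 / 5 ≤ t * (Xc L x' - Xc L x) ∧ t * (Xc L x' - Xc L x) ≤ 6 / 5 ∧
      (4 * t + 1) / 5 ≤ (Yc L w' : ℝ) - Yc L w ∧ (Yc L w' : ℝ) - Yc L w ≤ (6 * t - 1) / 5
  | 0, _, _, _, _, h => h.elim
  | L + 1, (b, x), (c, w), (b', x'), (c', w'), h => by
      rcases h with ⟨h1, h2, h3, h4, h5⟩ | ⟨h1, h2⟩
      · simp only at h1 h2 h3 h4 h5
        subst h1 h2 h3 h4 h5
        obtain ⟨k1, k2⟩ := X_bounds L x
        obtain ⟨k3, k4⟩ := X_bounds L x'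
        refine ⟨1, le_rfl, ?_, ?_, ?_, ?_⟩ <;> simp [Xc, Yc, bit] <;> linarith
      · simp only at h1 h2
        subst h1
        obtain ⟨t, t1, t2, t3, t4, t5⟩ := E_bounds L x w x' w' h2
        refine ⟨6 * t, by linarith, ?_, ?_, ?_, ?_⟩
        · simp only [Xc]; linarith
        · simp only [Xc]; linarith
        · cases c <;> cases c' <;> simp [Yc, bit] <;> linarith
        · cases c <;> cases c' <;> simp [Yc, bit] <;> linarith

/-- The point of the plane attached to a pair of words. -/
noncomputable def pt (L : ℕ) (p : B L × B L) : ℝ × ℝ := (Xc L p.1, (Yc L p.2 : ℝ))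

lemma pt_inj (L : ℕ) : Function.Injective (pt L) := by
  rintro ⟨x, w⟩ ⟨x', w'⟩ h
  simp only [pt, Prod.mk.injEq, Nat.cast_inj] at h
  rw [X_inj L h.1, Y_inj L h.2]

lemma hyp_of_E (L : ℕ) (x w x' w' : B L) (h : E L x w x' w') :
    Hyp (pt L (x, w)) (pt L (x', w')) := by
  obtain ⟨t, t1, t2, t3, t4, t5⟩ := E_bounds L x w x' w' h
  rw [hyp_iff]
  have e : pr (pt L (x, w)) (pt L (x', w')) = (Xc L x' - Xc L x) * ((Yc L w' : ℝ) - Yc L w) := by
    simp only [pr, pt]; ring
  rw [e]
  generalize Xc L x' - Xc L x = a at *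
  generalize (Yc L w' : ℝ) - Yc L w = b at *
  have ha : 0 < a := by
    by_contra hh
    push Not at hh
    nlinarith
  constructor
  · nlinarith [mul_le_mul_of_nonneg_left t4 ha.le]
  · nlinarith [mul_le_mul_of_nonneg_left t5 ha.le]

open Classical in
/-- The transfer bound. -/
lemma transfer : ∀ (L : ℕ) (A : B L → B L → Prop),
    (∀ x w x' w', A x w → A x' w' → ¬ E L x w x' w') →
    ∀ h : B L → ℝ, (∀ w, 0 ≤ h w) →
      ∑ x, (∑ w, if A x w then h w else 0) ^ 2 ≤ (21 / 8) ^ L * ∑ w, h w ^ 2
  | 0, A, _, h, hh => by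
      have e1 : ∀ g : B 0 → ℝ, ∑ x, g x = g () := fun g =>
        Fintype.sum_unique (fun x : Unit => g x)
      rw [e1, e1, e1]
      have := hh ()
      split_ifs <;> simp
      positivity
  | L + 1, A, hA, h, hh => by
      -- projected sets and transferred weights
      let A' : Bool → B L → B L → Prop := fun b x w => ∃ c, A (b, x) (c, w)
      let ok : Bool → Bool → B L → Prop := fun b c w => ∃ x, A (b, x) (c, w)
      let h' : Bool → B L → ℝ := fun b w =>
        (if ok b false w then h (false, w) else 0) + (if ok b true w then h (true, w) else 0)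
      have h'nn : ∀ b w, 0 ≤ h' b w := fun b w => by
        have := hh (false, w)
        have := hh (true, w)
        simp only [h']
        split_ifs <;> linarith
      have hA' : ∀ b x w x' w', A' b x w → A' b x' w' → ¬ E L x w x' w' := by
        rintro b x w x' w' ⟨c, hc⟩ ⟨c', hc'⟩ hE
        exact hA _ _ _ _ hc hc' (Or.inr ⟨rfl, hE⟩)
      have step : ∀ b x, (∑ w : B (L + 1), if A (b, x) w then h w else 0)
          ≤ ∑ w : B L, if A' b x w then h' b w else 0 := by
        intro b x
        rw [sum_B_succ, ← Finset.sum_add_distrib]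
        apply Finset.sum_le_sum
        intro w _
        have := hh (false, w)
        have := hh (true, w)
        by_cases c0 : A (b, x) (false, w) <;> by_cases c1 : A (b, x) (true, w)
        · have e0 : ok b false w := ⟨x, c0⟩
          have e1 : ok b true w := ⟨x, c1⟩
          have e2 : A' b x w := ⟨_, c0⟩
          simp [h', c0, c1, e0, e1, e2]
        · have e0 : ok b false w := ⟨x, c0⟩
          have e2 : A' b x w := ⟨_, c0⟩
          simp only [h', c0, c1, e0, e2, if_true, if_false]
          split_ifs <;> linarith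
        · have e1 : ok b true w := ⟨x, c1⟩
          have e2 : A' b x w := ⟨_, c1⟩
          simp only [h', c0, c1, e1, e2, if_true, if_false]
          split_ifs <;> linarith
        · have := h'nn b w
          simp only [c0, c1, if_false]
          split_ifs <;> linarith
      have nn : ∀ b x, 0 ≤ (∑ w : B (L + 1), if A (b, x) w then h w else 0) := by
        intro b x
        apply Finset.sum_nonneg
        intro w _
        have := hh w
        split_ifs <;> linarith
      have ih : ∀ b, ∑ x : B L, (∑ w : B (L + 1), if A (b, x) w then h w else 0) ^ 2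
          ≤ (21 / 8) ^ L * ∑ w, h' b w ^ 2 := by
        intro b
        refine le_trans ?_ (transfer L (A' b) (hA' b) (h' b) (h'nn b))
        apply Finset.sum_le_sum
        intro x _
        have := pow_le_pow_left₀ (nn b x) (step b x) 2
        convert this
      have loc : ∀ w, h' false w ^ 2 + h' true w ^ 2
          ≤ 21 / 8 * (h (false, w) ^ 2 + h (true, w) ^ 2) := by
        intro w
        have p0 := hh (false, w)
        have p1 := hh (true, w)
        have excl : ¬ (ok false false w ∧ ok true true w) := by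
          rintro ⟨⟨x, hx⟩, ⟨x', hx'⟩⟩
          exact hA _ _ _ _ hx hx' (Or.inl ⟨rfl, rfl, rfl, rfl, rfl⟩)
        simp only [h']
        generalize h (false, w) = a at *
        generalize h (true, w) = c at *
        have hac := mul_nonneg p0 p1
        split_ifs with c1 c2 c3 c4 <;>
          first
            | exact absurd ⟨by assumption, by assumption⟩ excl
            | nlinarith [sq_nonneg (13 * a - 8 * c), sq_nonneg (13 * c - 8 * a), sq_nonneg a, sq_nonneg c]
      rw [sum_B_succ, sum_B_succ L (fun w => h w ^ 2)]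
      calc _ ≤ (21 / 8) ^ L * ∑ w, h' false w ^ 2 + (21 / 8) ^ L * ∑ w, h' true w ^ 2 :=
            add_le_add (ih false) (ih true)
        _ = (21 / 8) ^ L * ∑ w, (h' false w ^ 2 + h' true w ^ 2) := by
            rw [Finset.sum_add_distrib]; ring
        _ ≤ (21 / 8) ^ L * ∑ w, 21 / 8 * (h (false, w) ^ 2 + h (true, w) ^ 2) := by
            apply mul_le_mul_of_nonneg_left _ (by positivity)
            exact Finset.sum_le_sum fun w _ => loc w
        _ = _ := by
            rw [← Finset.mul_sum, Finset.sum_add_distrib]; ring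

/-- Independent sets of the hyperbola graph on the Cantor product are small. -/
lemma indep_bound (L : ℕ) (S : Finset (B L × B L))
    (hS : ∀ p ∈ S, ∀ q ∈ S, ¬ Hyp (pt L p) (pt L q)) :
    (S.card : ℝ) ^ 2 ≤ (21 / 2) ^ L := by
  classical
  have h := transfer L (fun x w => (x, w) ∈ S)
    (fun x w x' w' h1 h2 hE => hS _ h1 _ h2 (hyp_of_E L x w x' w' hE)) (fun _ => 1)
    (fun _ => zero_le_one)
  have hc : (S.card : ℝ) = ∑ x : B L, ∑ w : B L, if (x, w) ∈ S then (1 : ℝ) else 0 := by
    rw [← Fintype.sum_prod_type (fun p : B L × B L => if p ∈ S then (1 : ℝ) else 0)]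
    simp
  have cs := sq_sum_le_card_mul_sum_sq (s := (Finset.univ : Finset (B L)))
    (f := fun x => ∑ w : B L, if (x, w) ∈ S then (1 : ℝ) else 0)
  rw [hc]
  refine cs.trans ?_
  simp only [one_pow, Finset.sum_const, Finset.card_univ, card_B, nsmul_eq_mul, mul_one] at h ⊢
  have e : (21 / 2 : ℝ) ^ L = (2 ^ L : ℝ) * ((21 / 8) ^ L * 2 ^ L) := by
    rw [← mul_pow, ← mul_pow]; norm_num
  rw [e]
  push_cast at h ⊢
  apply mul_le_mul_of_nonneg_left _ (by positivity)
  refine le_trans (le_of_eq ?_) h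
  refine Finset.sum_congr rfl fun x _ => ?_
  congr 1
  refine Finset.sum_congr rfl fun w _ => ?_
  split_ifs <;> rfl

/-- A triangle-free graph on at least `n * k` vertices without independent `n`-set has an
independent `k`-set. -/
lemma ramsey_aux {V : Type} (G : SimpleGraph V) (n : ℕ)
    (h3 : ∀ T : Finset V, ¬ G.IsNClique 3 T) (hn : ∀ T : Finset V, ¬ G.IsNIndepSet n T) :
    ∀ (k : ℕ) (s : Finset V), n * k ≤ s.card → ∃ T ⊆ s, G.IsNIndepSet k T := by
  classical
  have npos : 0 < n := by
    rcases Nat.eq_zero_or_pos n with h | h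
    · exact absurd ⟨by simp, by simp [h]⟩ (hn ∅)
    · exact h
  intro k
  induction k with
  | zero => intro s _; exact ⟨∅, by simp, by simp, by simp⟩
  | succ k ih =>
    intro s hs
    have hne : s.Nonempty := by
      rw [← Finset.card_pos]
      nlinarith
    obtain ⟨v, hv⟩ := hne
    have hcf : G.CliqueFree 3 := h3
    have hN : (s.filter (fun u => G.Adj v u)).card < n := by
      by_contra hh
      push Not at hh
      obtain ⟨T, hT, hTc⟩ := Finset.exists_subset_card_eq hh
      refine hn T ⟨?_, hTc⟩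
      intro a ha b hb _ hab
      have ha' := (Finset.mem_filter.1 (hT ha)).2
      have hb' := (Finset.mem_filter.1 (hT hb)).2
      exact h3 {v, a, b} (SimpleGraph.is3Clique_triple_iff.2 ⟨ha', hb', hab⟩)
    have hsplit := Finset.card_filter_add_card_filter_not (s := s) (fun u => G.Adj v u)
    have hcard : n * k ≤ ((s.filter (fun u => ¬ G.Adj v u)).erase v).card := by
      rw [Finset.card_erase_of_mem (by simp [hv])]
      have : n * (k + 1) = n * k + n := by ring
      omega
    obtain ⟨T, hT, hTi, hTc⟩ := ih _ hcard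
    have hvT : v ∉ T := fun h => by simpa using hT h
    refine ⟨insert v T, ?_, ?_, by rw [Finset.card_insert_of_notMem hvT, hTc]⟩
    · intro a ha
      rcases Finset.mem_insert.1 ha with rfl | ha
      · exact hv
      · exact (Finset.mem_filter.1 (Finset.mem_of_mem_erase (hT ha))).1
    · have hno : ∀ a ∈ T, ¬ G.Adj v a := fun a ha =>
        (Finset.mem_filter.1 (Finset.mem_of_mem_erase (hT ha))).2
      intro a ha b hb hab
      simp only [Finset.coe_insert, Set.mem_insert_iff, Finset.mem_coe] at ha hb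
      rcases ha with rfl | ha <;> rcases hb with rfl | hb
      · exact absurd rfl hab
      · exact hno b hb
      · exact fun h => hno a ha h.symm
      · exact hTi ha hb hab

lemma ramsey (n : ℕ) (G : SimpleGraph (Fin (n * n))) :
    (∃ T, G.IsNClique 3 T) ∨ (∃ T, G.IsNIndepSet n T) := by
  by_contra h
  push Not at h
  obtain ⟨T, _, hT⟩ := ramsey_aux G n h.1 h.2 n Finset.univ (by simp)
  exact h.2 T hT

/-- Choice of the level. -/
lemma exists_level : ∀ᶠ n : ℕ in Filter.atTop,
    ∃ L : ℕ, (21 / 2 : ℝ) ^ L < (n : ℝ) ^ 2 ∧ (n : ℝ) ^ ((7 : ℝ) / 6) ≤ 4 ^ L := by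
  refine Filter.eventually_atTop.2 ⟨4 ^ 100, fun n hn => ?_⟩
  have hn' : (4 : ℝ) ^ 100 ≤ n := by exact_mod_cast hn
  have hex : ∃ L : ℕ, (n : ℝ) ^ 2 ≤ (21 / 2 : ℝ) ^ (L + 1) := by
    obtain ⟨L, hL⟩ := pow_unbounded_of_one_lt ((n : ℝ) ^ 2) (by norm_num : (1 : ℝ) < 21 / 2)
    refine ⟨L, hL.le.trans ?_⟩
    exact pow_le_pow_right₀ (by norm_num) (by omega)
  have hL := Nat.find_spec hex
  have hbig : 100 ≤ Nat.find hex := by
    by_contra hh
    push Not at hh
    have h1 : (21 / 2 : ℝ) ^ (Nat.find hex + 1) ≤ (21 / 2 : ℝ) ^ 100 :=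
      pow_le_pow_right₀ (by norm_num) (by omega)
    have h2 : ((4 : ℝ) ^ 100) ^ 2 ≤ (n : ℝ) ^ 2 := pow_le_pow_left₀ (by positivity) hn' 2
    have h3 : (21 / 2 : ℝ) ^ 100 < ((4 : ℝ) ^ 100) ^ 2 := by norm_num
    linarith
  obtain ⟨M, hM⟩ : ∃ M, Nat.find hex = M + 100 := ⟨Nat.find hex - 100, by omega⟩
  refine ⟨Nat.find hex, ?_, ?_⟩
  · have := Nat.find_min hex (m := M + 99) (by omega)
    push Not at this
    rw [hM]
    exact this
  · have npos : (0 : ℝ) ≤ n := Nat.cast_nonneg n
    apply le_of_pow_le_pow_left₀ (n := 12) (by norm_num) (by positivity)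
    have e : ((n : ℝ) ^ ((7 : ℝ) / 6)) ^ 12 = ((n : ℝ) ^ 2) ^ 7 := by
      rw [← Real.rpow_natCast, ← Real.rpow_mul npos, ← pow_mul, ← Real.rpow_natCast]
      norm_num
    rw [e]
    refine (pow_le_pow_left₀ (by positivity) hL 7).trans ?_
    rw [hM]
    have e1 : ((21 / 2 : ℝ) ^ (M + 100 + 1)) ^ 7 = ((21 / 2) ^ 7) ^ M * (21 / 2) ^ 707 := by
      rw [← pow_mul, ← pow_mul, ← pow_add]; congr 1; ring
    have e2 : ((4 : ℝ) ^ (M + 100)) ^ 12 = (4 ^ 12) ^ M * 4 ^ 1200 := by
      rw [← pow_mul, ← pow_mul, ← pow_add]; congr 1; ring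
    rw [e1, e2]
    apply mul_le_mul
    · exact pow_le_pow_left₀ (by positivity) (by norm_num) M
    · have : (21 : ℝ) ^ 707 ≤ 4 ^ 1200 * 2 ^ 707 := by
        exact_mod_cast (by decide +kernel : (21 : ℕ) ^ 707 ≤ 4 ^ 1200 * 2 ^ 707)
      rw [div_pow, div_le_iff₀ (by positivity)]
      exact this
    · positivity
    · positivity

end Pool.Agent.Lib.MP_8f4311_co
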